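import Mathlib

/-!
# An SCD set without a countable pi-basis for the relative weak topology

We construct a real Banach space `X` and a nonempty closed, convex, bounded, slicely countably
determined subset `U` of `X` whose relative weak topology has no countable pi-basis.

Construction. Let `Y = C(K)` for the Cantor space `K`, let `X = Y × ℝ × ℝ`, and let `U` be the
closed convex hull of the points `(d N, t, t ^ 2)` with `t = 2 i + 1 / (N + 2)`, `i = 0, 1, 2`,
where every point of the unit ball of `Y` is a limit of `d N` along infinitely many `N`.  All these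
points are strongly exposed, so `U` is SCD.  Over the triangle spanned by the three limit points
`(2 i, (2 i) ^ 2)` the set `U` is the product of the whole unit ball of `C(K)` with the triangle,
and there no countable pi-basis exists.
-/

namespace Pool.Agent.Results.MP_349854_an.NoCountablePiBasis

open Set Topology Filter

section Defs

variable {X : Type*} [NormedAddCommGroup X] [NormedSpace ℝ X]

/-- The slice `S(A, f, ε) = {x ∈ A : f x > sup_A f - ε}`. -/
def slice (A : Set X) (f : X →L[ℝ] ℝ) (ε : ℝ) : Set X :=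
  {x | x ∈ A ∧ sSup (f '' A) - ε < f x}

/-- A sequence of nonempty subsets of `A` is determining for `A` if every set `B` which meets
all of them satisfies `A ⊆ closure (conv B)`. -/
def IsDetermining (A : Set X) (V : ℕ → Set X) : Prop :=
  (∀ n, (V n).Nonempty ∧ V n ⊆ A) ∧
    ∀ B : Set X, (∀ n, (B ∩ V n).Nonempty) → A ⊆ closure (convexHull ℝ B)

/-- `A` is slicely countably determined: some sequence of slices of `A` is determining. -/
def IsSCD (A : Set X) : Prop :=
  ∃ (f : ℕ → (X →L[ℝ] ℝ)) (ε : ℕ → ℝ), (∀ n, 0 < ε n) ∧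
    IsDetermining A (fun n => slice A (f n) (ε n))

/-- The topological space `T` has a countable pi-basis: a countable family of nonempty open sets
such that every nonempty open set contains a member of the family. -/
def HasCountablePiBasis (T : Type*) [TopologicalSpace T] : Prop :=
  ∃ P : Set (Set T), P.Countable ∧ (∀ V ∈ P, IsOpen V ∧ V.Nonempty) ∧
    ∀ O : Set T, IsOpen O → O.Nonempty → ∃ V ∈ P, V ⊆ O

end Defs

/-- The Cantor space. -/
abbrev K := ℕ → Bool
/-- The Banach space of continuous functions on the Cantor space. -/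
abbrev Y := C(ℕ → Bool, ℝ)

/-- Cylinder of length `k` around `s`. -/
def cyl (k : ℕ) (s : K) : Set K := {x | ∀ i < k, x i = s i}

lemma isClopen_cyl (k : ℕ) (s : K) : IsClopen (cyl k s) := by
  have : cyl k s = ⋂ i ∈ Finset.range k, {x : K | x i = s i} := by
    ext x; simp [cyl]
  rw [this]
  apply isClopen_biInter_finset
  intro i _
  exact (isClopen_discrete {s i}).preimage (continuous_apply i)

/-- The characteristic function of a cylinder. -/
noncomputable def chi (k : ℕ) (s : K) : Y :=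
  ⟨Set.indicator (cyl k s) 1, by
    have h := (LocallyConstant.charFn ℝ (isClopen_cyl k s)).continuous
    rwa [LocallyConstant.coe_charFn] at h⟩

lemma chi_of_mem {k : ℕ} {s x : K} (h : x ∈ cyl k s) : chi k s x = 1 := by
  show Set.indicator (cyl k s) 1 x = 1
  simp [h]

lemma chi_of_notMem {k : ℕ} {s x : K} (h : x ∉ cyl k s) : chi k s x = 0 := by
  show Set.indicator (cyl k s) 1 x = 0
  simp [h]

lemma self_mem_cyl (k : ℕ) (s : K) : s ∈ cyl k s := fun _ _ => rfl

lemma cyl_eq_of_mem {k : ℕ} {s x : K} (h : x ∈ cyl k s) : cyl k x = cyl k s := by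
  ext z
  constructor
  · intro hz i hi
    rw [hz i hi, h i hi]
  · intro hz i hi
    rw [hz i hi, h i hi]

lemma chi_eq_of_mem {k : ℕ} {s x : K} (h : x ∈ cyl k s) : chi k x = chi k s := by
  ext z
  by_cases hz : z ∈ cyl k s
  · rw [chi_of_mem hz, chi_of_mem (by rwa [cyl_eq_of_mem h])]
  · rw [chi_of_notMem hz, chi_of_notMem (by rwa [cyl_eq_of_mem h])]

lemma norm_mul_chi_le (y : Y) (hy : ‖y‖ ≤ 1) (k : ℕ) (s : K) : ‖y * chi k s‖ ≤ 1 := by
  rw [ContinuousMap.norm_le _ zero_le_one]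
  intro x
  by_cases hx : x ∈ cyl k s
  · simp only [ContinuousMap.mul_apply, chi_of_mem hx, mul_one]
    exact (y.norm_coe_le_norm x).trans hy
  · simp [chi_of_notMem hx]

lemma chi_mul_chi {k l : ℕ} (h : k ≤ l) (s : K) : chi l s * chi k s = chi l s := by
  ext x
  by_cases hx : x ∈ cyl l s
  · have : x ∈ cyl k s := fun i hi => hx i (by omega)
    simp [chi_of_mem hx, chi_of_mem this]
  · simp [chi_of_notMem hx]

/-- Points at which `f` has no atom larger than `ε`. -/
def small (f : Y →L[ℝ] ℝ) (ε : ℝ) : Set K :=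
  {s | ∃ k, ∀ y : Y, ‖y‖ ≤ 1 → |f (y * chi k s)| < ε}

lemma isOpen_small (f : Y →L[ℝ] ℝ) (ε : ℝ) : IsOpen (small f ε) := by
  rw [isOpen_iff_mem_nhds]
  rintro s ⟨k, hk⟩
  filter_upwards [(isClopen_cyl k s).isOpen.mem_nhds (self_mem_cyl k s)] with x hx
  exact ⟨k, fun y hy => by rw [chi_eq_of_mem hx]; exact hk y hy⟩

/-- auxiliary points with pairwise disjoint cylinders -/
def aux (m : ℕ) (s : K) (j : ℕ) : K := fun i => if i < m then s i else decide (i < m + j)

lemma aux_disj (m : ℕ) (s : K) {j l : ℕ} (h : j < l) (x : K)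
    (h1 : x ∈ cyl (m + j + 1) (aux m s j)) (h2 : x ∈ cyl (m + l + 1) (aux m s l)) : False := by
  have e1 := h1 (m + j) (by omega)
  have e2 := h2 (m + j) (by omega)
  simp [aux] at e1 e2
  rw [e1] at e2
  simp at e2
  omega

lemma dense_small (f : Y →L[ℝ] ℝ) {ε : ℝ} (hε : 0 < ε) : Dense (small f ε) := by
  rw [dense_iff_inter_open]
  rintro O hO ⟨s, hs⟩
  -- a cylinder inside `O`
  obtain ⟨m, hm⟩ : ∃ m, cyl m s ⊆ O := by
    rw [isOpen_pi_iff] at hO
    obtain ⟨I, u, hu, hsub⟩ := hO s hs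
    refine ⟨I.sup id + 1, fun x hx => hsub ?_⟩
    intro i hi
    have : x i = s i := hx i (by
      have : i ≤ I.sup id := Finset.le_sup (f := id) hi
      omega)
    rw [this]
    exact (hu i hi).2
  by_contra hcon
  have hbad : ∀ j : ℕ, ∃ y : Y, ‖y‖ ≤ 1 ∧ ε ≤ |f (y * chi (m + j + 1) (aux m s j))| := by
    intro j
    by_contra hno
    push Not at hno
    apply hcon
    refine ⟨aux m s j, hm ?_, m + j + 1, hno⟩
    intro i hi
    simp [aux, hi]
  choose y hy hfy using hbad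
  let g : ℕ → Y := fun j =>
    (SignType.sign (f (y j * chi (m + j + 1) (aux m s j))) : ℝ) • (y j * chi (m + j + 1) (aux m s j))
  have hg0 : ∀ j x, x ∉ cyl (m + j + 1) (aux m s j) → g j x = 0 := by
    intro j x hx
    simp [g, chi_of_notMem hx]
  have hg1 : ∀ j x, |g j x| ≤ 1 := by
    intro j x
    have h1 : |(y j * chi (m + j + 1) (aux m s j)) x| ≤ 1 :=
      ((y j * chi (m + j + 1) (aux m s j)).norm_coe_le_norm x).trans
        (norm_mul_chi_le (y j) (hy j) _ _)
    have h2 : |((SignType.sign (f (y j * chi (m + j + 1) (aux m s j))) : SignType) : ℝ)| ≤ 1 := by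
      rcases SignType.sign (f (y j * chi (m + j + 1) (aux m s j))) with _ | _ | _ <;> simp
    calc |g j x| = |((SignType.sign (f (y j * chi (m + j + 1) (aux m s j))) : SignType) : ℝ)| *
          |(y j * chi (m + j + 1) (aux m s j)) x| := by
            simp only [g, ContinuousMap.smul_apply, smul_eq_mul, abs_mul]
      _ ≤ 1 * 1 := mul_le_mul h2 h1 (abs_nonneg _) zero_le_one
      _ = 1 := one_mul 1
  have hfg : ∀ j, ε ≤ f (g j) := by
    intro j
    simp only [g, map_smul, smul_eq_mul]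
    rw [sign_mul_self]
    exact hfy j
  have hsum : ∀ N : ℕ, ‖∑ j ∈ Finset.range N, g j‖ ≤ 1 := by
    intro N
    rw [ContinuousMap.norm_le _ zero_le_one]
    intro x
    rw [ContinuousMap.coe_sum, Finset.sum_apply]
    by_cases hx : ∃ j, x ∈ cyl (m + j + 1) (aux m s j)
    · obtain ⟨j, hj⟩ := hx
      have huniq : ∀ l, l ≠ j → g l x = 0 := by
        intro l hl
        apply hg0
        intro hlx
        rcases lt_or_gt_of_ne hl with h | h
        · exact aux_disj m s h x hlx hj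
        · exact aux_disj m s h x hj hlx
      by_cases hjN : j ∈ Finset.range N
      · rw [Finset.sum_eq_single_of_mem j hjN (fun l _ hl => huniq l hl)]
        exact hg1 j x
      · rw [Finset.sum_eq_zero (fun l hl => huniq l (fun h => hjN (h ▸ hl)))]
        simp
    · push Not at hx
      rw [Finset.sum_eq_zero (fun l _ => hg0 l x (hx l))]
      simp
  obtain ⟨N, hN⟩ := exists_nat_gt (‖f‖ / ε)
  have h1 : (N : ℝ) * ε ≤ f (∑ j ∈ Finset.range N, g j) := by
    rw [map_sum]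
    calc (N : ℝ) * ε = ∑ j ∈ Finset.range N, ε := by simp
      _ ≤ _ := Finset.sum_le_sum (fun j _ => hfg j)
  have h2 : f (∑ j ∈ Finset.range N, g j) ≤ ‖f‖ := by
    calc f (∑ j ∈ Finset.range N, g j) ≤ ‖f (∑ j ∈ Finset.range N, g j)‖ := le_abs_self _
      _ ≤ ‖f‖ * ‖∑ j ∈ Finset.range N, g j‖ := f.le_opNorm _
      _ ≤ ‖f‖ * 1 := mul_le_mul_of_nonneg_left (hsum N) f.opNorm_nonneg
      _ = ‖f‖ := mul_one _
  rw [div_lt_iff₀ hε] at hN
  linarith

/-- A common point without atoms for countably many functionals. -/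
lemma exists_point (D : Set (Y →L[ℝ] ℝ)) (hD : D.Countable) :
    ∃ s : K, ∀ f ∈ D, ∀ y : Y, ‖y‖ ≤ 1 → Tendsto (fun k => f (y * chi k s)) atTop (𝓝 0) := by
  have hdense : Dense (⋂ f ∈ D, ⋂ n : ℕ, small f (1 / ((n : ℝ) + 1))) := by
    have hGd : ∀ f : Y →L[ℝ] ℝ, IsGδ (⋂ n : ℕ, small f (1 / ((n : ℝ) + 1))) := fun f =>
      IsGδ.iInter_of_isOpen (fun n => isOpen_small _ _)
    apply dense_biInter_of_Gδ (fun f _ => hGd f) hD
    intro f _
    apply dense_iInter_of_isOpen (fun n => isOpen_small _ _)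
    intro n
    exact dense_small f (by positivity)
  obtain ⟨s, hs⟩ := hdense.nonempty
  refine ⟨s, fun f hf y hy => ?_⟩
  rw [Metric.tendsto_atTop]
  intro ε hε
  obtain ⟨n, hn⟩ := exists_nat_one_div_lt hε
  have hs' : s ∈ small f (1 / ((n : ℝ) + 1)) := by
    simp only [mem_iInter] at hs
    exact hs f hf n
  obtain ⟨k, hk⟩ := hs'
  refine ⟨k, fun l hl => ?_⟩
  have h1 := hk (y * chi l s) (norm_mul_chi_le y hy l s)
  rw [mul_assoc, chi_mul_chi hl] at h1
  rw [Real.dist_eq, sub_zero]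
  exact h1.trans hn

/-! ### The set -/

/-- The ambient Banach space. -/
abbrev X := Y × ℝ × ℝ

/-- abscissa -/
noncomputable def tt (k : Fin 3 × ℕ) : ℝ := 2 * (k.1 : ℝ) + 1 / ((k.2 : ℝ) + 2)

lemma tt_pos (k : Fin 3 × ℕ) : 0 < tt k := by
  unfold tt; positivity

lemma inv_le_half (n : ℕ) : 1 / ((n : ℝ) + 2) ≤ 1 / 2 := by
  apply one_div_le_one_div_of_le <;> [norm_num; (have : (0 : ℝ) ≤ n := n.cast_nonneg; linarith)]

lemma fin3_le (i : Fin 3) : (i : ℝ) ≤ 2 := by
  have : (i : ℕ) ≤ 2 := by omega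
  exact_mod_cast this

lemma tt_le (k : Fin 3 × ℕ) : tt k ≤ 5 := by
  unfold tt
  have h1 := inv_le_half k.2
  have h2 := fin3_le k.1
  linarith

lemma tt_sep (k : Fin 3 × ℕ) : ∃ δ : ℝ, 0 < δ ∧ ∀ l, l ≠ k → δ ≤ |tt l - tt k| := by
  refine ⟨1 / (((k.2 : ℝ) + 2) * ((k.2 : ℝ) + 3)), by positivity, ?_⟩
  intro l hl
  obtain ⟨i, n⟩ := k
  obtain ⟨j, m⟩ := l
  simp only [tt]
  have hn : (0 : ℝ) ≤ n := n.cast_nonneg
  have hm : (0 : ℝ) ≤ m := m.cast_nonneg
  have hn2 := inv_le_half n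
  have hm2 := inv_le_half m
  have hn3 : 0 < 1 / ((n : ℝ) + 2) := by positivity
  have hm3 : 0 < 1 / ((m : ℝ) + 2) := by positivity
  have hδ1 : 1 / (((n : ℝ) + 2) * ((n : ℝ) + 3)) ≤ 1 := by
    rw [div_le_one (by positivity)]
    nlinarith
  by_cases hij : i = j
  · subst hij
    have hmn : m ≠ n := fun h => hl (by rw [h])
    have e : (2 * ((i : ℕ) : ℝ) + 1 / ((m : ℝ) + 2) - (2 * ((i : ℕ) : ℝ) + 1 / ((n : ℝ) + 2)))
        = ((n : ℝ) - m) / (((m : ℝ) + 2) * ((n : ℝ) + 2)) := by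
      field_simp
      ring
    rw [e, abs_div, abs_of_pos (show (0 : ℝ) < ((m : ℝ) + 2) * ((n : ℝ) + 2) by positivity)]
    rw [div_le_div_iff₀ (by positivity) (by positivity)]
    rcases lt_or_gt_of_ne hmn with h | h
    · have h1 : (m : ℝ) + 1 ≤ n := by exact_mod_cast h
      have h2 : (1 : ℝ) ≤ |(n : ℝ) - m| := by rw [abs_of_pos (by linarith)]; linarith
      calc 1 * (((m : ℝ) + 2) * ((n : ℝ) + 2)) ≤ 1 * (((n : ℝ) + 2) * ((n : ℝ) + 3)) := by nlinarith
        _ ≤ |(n : ℝ) - m| * (((n : ℝ) + 2) * ((n : ℝ) + 3)) :=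
          mul_le_mul_of_nonneg_right h2 (by positivity)
    · have h1 : (n : ℝ) + 1 ≤ m := by exact_mod_cast h
      rw [abs_of_neg (by linarith)]
      nlinarith [mul_nonneg (by linarith : (0 : ℝ) ≤ (m : ℝ) - n - 1)
        (by positivity : (0 : ℝ) ≤ ((n : ℝ) + 2) * ((n : ℝ) + 2))]
  · have hij' : (i : ℕ) ≠ (j : ℕ) := fun h => hij (Fin.ext h)
    refine hδ1.trans ?_
    rcases lt_or_gt_of_ne hij' with h | h
    · have h1 : ((i : ℕ) : ℝ) + 1 ≤ ((j : ℕ) : ℝ) := by exact_mod_cast h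
      refine le_trans ?_ (le_abs_self _)
      linarith
    · have h1 : ((j : ℕ) : ℝ) + 1 ≤ ((i : ℕ) : ℝ) := by exact_mod_cast h
      refine le_trans ?_ (neg_le_abs _)
      linarith

/-- A sequence in the unit ball of `Y` which comes back near every point of the ball. -/
lemma exists_seq : ∃ d : ℕ → Y, (∀ n, ‖d n‖ ≤ 1) ∧
    ∀ y : Y, ‖y‖ ≤ 1 → ∀ η > 0, ∀ N : ℕ, ∃ n ≥ N, ‖d n - y‖ < η := by
  have hsep : TopologicalSpace.SeparableSpace (Metric.closedBall (0 : Y) 1) := by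
    infer_instance
  have : Nonempty (Metric.closedBall (0 : Y) 1) := ⟨⟨0, by simp⟩⟩
  obtain ⟨u, hu⟩ := TopologicalSpace.exists_dense_seq (Metric.closedBall (0 : Y) 1)
  refine ⟨fun n => (u n.unpair.1 : Y), fun n => ?_, ?_⟩
  · exact mem_closedBall_zero_iff.1 (u n.unpair.1).2
  · intro y hy η hη N
    have hy' : y ∈ Metric.closedBall (0 : Y) 1 := by simpa using hy
    obtain ⟨z, hz, ⟨n, rfl⟩⟩ := (Metric.dense_iff.1 hu) ⟨y, hy'⟩ η hη
    refine ⟨Nat.pair n N, Nat.right_le_pair n N, ?_⟩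
    simp only [Nat.unpair_pair]
    rw [Metric.mem_ball, Subtype.dist_eq, dist_eq_norm] at hz
    exact hz

variable (d : ℕ → Y)

/-- The generating points. -/
noncomputable def zz (k : Fin 3 × ℕ) : X := (d k.2, tt k, tt k ^ 2)

/-- The set `U`. -/
noncomputable def UU : Set X := closure (convexHull ℝ (range (zz d)))

/-- The exposing functional. -/
noncomputable def phi (k : Fin 3 × ℕ) : X →L[ℝ] ℝ :=
  (2 * tt k) • ((ContinuousLinearMap.fst ℝ ℝ ℝ).comp (ContinuousLinearMap.snd ℝ Y (ℝ × ℝ))) -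
    (ContinuousLinearMap.snd ℝ ℝ ℝ).comp (ContinuousLinearMap.snd ℝ Y (ℝ × ℝ))

lemma phi_apply (k : Fin 3 × ℕ) (x : X) : phi k x = 2 * tt k * x.2.1 - x.2.2 := by
  simp [phi]

lemma subset_UU {C : Set X} (hC : Convex ℝ C) (hcl : IsClosed C) (h : ∀ k, zz d k ∈ C) :
    UU d ⊆ C :=
  closure_minimal (convexHull_min (by rintro _ ⟨k, rfl⟩; exact h k) hC) hcl

lemma zz_mem (k : Fin 3 × ℕ) : zz d k ∈ UU d := subset_closure (subset_convexHull ℝ _ ⟨k, rfl⟩)

lemma convex_UU : Convex ℝ (UU d) := (convex_convexHull ℝ _).closure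

lemma norm_zz_le (hd : ∀ n, ‖d n‖ ≤ 1) (k : Fin 3 × ℕ) : ‖zz d k‖ ≤ 25 := by
  have h1 := tt_pos k
  have h2 := tt_le k
  simp only [zz, Prod.norm_def]
  refine max_le ((hd _).trans (by norm_num)) (max_le ?_ ?_)
  · rw [Real.norm_eq_abs, abs_of_pos h1]; linarith
  · rw [Real.norm_eq_abs, abs_of_pos (by positivity)]; nlinarith

lemma UU_subset_ball (hd : ∀ n, ‖d n‖ ≤ 1) : UU d ⊆ Metric.closedBall 0 25 :=
  subset_UU d (convex_closedBall _ _) Metric.isClosed_closedBall
    (fun k => by simpa using norm_zz_le d hd k)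

lemma phi_zz (k l : Fin 3 × ℕ) : phi k (zz d l) = tt k ^ 2 - (tt l - tt k) ^ 2 := by
  rw [phi_apply]; simp only [zz]; ring

lemma phi_le (k : Fin 3 × ℕ) (x : X) (hx : x ∈ UU d) : phi k x ≤ tt k ^ 2 := by
  have : UU d ⊆ {x | phi k x ≤ tt k ^ 2} := by
    apply subset_UU
    · exact convex_halfSpace_le (phi k).isLinear _
    · exact isClosed_le (phi k).continuous continuous_const
    · intro l
      show phi k (zz d l) ≤ tt k ^ 2
      rw [phi_zz]
      nlinarith [sq_nonneg (tt l - tt k)]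
  exact this hx

lemma sSup_phi (k : Fin 3 × ℕ) : sSup (phi k '' UU d) = tt k ^ 2 := by
  apply IsGreatest.csSup_eq
  constructor
  · refine ⟨zz d k, zz_mem d k, ?_⟩
    rw [phi_zz]; ring
  · rintro _ ⟨x, hx, rfl⟩
    exact phi_le d k x hx

/-- The generating points are strongly exposed. -/
lemma key_ineq (hd : ∀ n, ‖d n‖ ≤ 1) (k : Fin 3 × ℕ) : ∃ C : ℝ, 0 < C ∧ ∀ x ∈ UU d,
    ‖x - zz d k‖ ≤ C * (tt k ^ 2 - phi k x) := by
  obtain ⟨δ, hδ, hsep⟩ := tt_sep k
  refine ⟨50 / δ ^ 2, by positivity, ?_⟩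
  have hsub : UU d ⊆ {x | ‖x - zz d k‖ ≤ 50 / δ ^ 2 * (tt k ^ 2 - phi k x)} := by
    apply subset_UU
    · intro x hx y hy a b ha hb hab
      simp only [mem_ofPred_eq] at hx hy ⊢
      have e : a • x + b • y - zz d k = a • (x - zz d k) + b • (y - zz d k) := by
        rw [smul_sub, smul_sub]
        nth_rewrite 1 [show zz d k = (a + b) • zz d k by rw [hab, one_smul]]
        rw [add_smul]
        abel
      rw [e]
      calc ‖a • (x - zz d k) + b • (y - zz d k)‖ ≤ ‖a • (x - zz d k)‖ + ‖b • (y - zz d k)‖ :=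
            norm_add_le _ _
        _ = a * ‖x - zz d k‖ + b * ‖y - zz d k‖ := by
            rw [norm_smul, norm_smul, Real.norm_eq_abs, Real.norm_eq_abs, abs_of_nonneg ha,
              abs_of_nonneg hb]
        _ ≤ a * (50 / δ ^ 2 * (tt k ^ 2 - phi k x)) + b * (50 / δ ^ 2 * (tt k ^ 2 - phi k y)) :=
            add_le_add (mul_le_mul_of_nonneg_left hx ha) (mul_le_mul_of_nonneg_left hy hb)
        _ = 50 / δ ^ 2 * ((a + b) * tt k ^ 2 - (a * phi k x + b * phi k y)) := by ring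
        _ = 50 / δ ^ 2 * (tt k ^ 2 - phi k (a • x + b • y)) := by
            rw [hab, one_mul, map_add, map_smul, map_smul, smul_eq_mul, smul_eq_mul]
    · apply isClosed_le
      · fun_prop
      · exact continuous_const.mul (continuous_const.sub (phi k).continuous)
    · intro l
      simp only [mem_ofPred_eq]
      rw [phi_zz]
      by_cases hl : l = k
      · subst hl; simp
      · have h1 : δ ^ 2 ≤ (tt l - tt k) ^ 2 := by
          rw [← sq_abs (tt l - tt k)]
          exact pow_le_pow_left₀ hδ.le (hsep l hl) 2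
        have h2 : ‖zz d l - zz d k‖ ≤ 50 := by
          calc ‖zz d l - zz d k‖ ≤ ‖zz d l‖ + ‖zz d k‖ := norm_sub_le _ _
            _ ≤ 25 + 25 := add_le_add (norm_zz_le d hd l) (norm_zz_le d hd k)
            _ = 50 := by norm_num
        calc ‖zz d l - zz d k‖ ≤ 50 := h2
          _ = 50 / δ ^ 2 * δ ^ 2 := by field_simp
          _ ≤ 50 / δ ^ 2 * (tt l - tt k) ^ 2 := mul_le_mul_of_nonneg_left h1 (by positivity)
          _ = 50 / δ ^ 2 * (tt k ^ 2 - (tt k ^ 2 - (tt l - tt k) ^ 2)) := by ring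
  intro x hx
  exact hsub hx

lemma isSCD_UU (hd : ∀ n, ‖d n‖ ≤ 1) : IsSCD (UU d) := by
  obtain ⟨e, he⟩ := exists_surjective_nat ((Fin 3 × ℕ) × ℕ)
  refine ⟨fun n => phi (e n).1, fun n => 1 / (((e n).2 : ℝ) + 1), fun n => by positivity, ?_, ?_⟩
  · intro n
    refine ⟨⟨zz d (e n).1, zz_mem d _, ?_⟩, fun x hx => hx.1⟩
    rw [sSup_phi, phi_zz]
    have : (0 : ℝ) < 1 / (((e n).2 : ℝ) + 1) := by positivity
    simp only [sub_self]
    linarith
  · intro B hB
    apply subset_UU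
    · exact (convex_convexHull ℝ _).closure
    · exact isClosed_closure
    · intro k
      obtain ⟨C, hC, hkey⟩ := key_ineq d hd k
      apply closure_mono (subset_convexHull ℝ B)
      rw [Metric.mem_closure_iff]
      intro η hη
      obtain ⟨j, hj⟩ := exists_nat_one_div_lt (show (0 : ℝ) < η / C by positivity)
      obtain ⟨n, hn⟩ := he (k, j)
      obtain ⟨b, hbB, hb⟩ := hB n
      refine ⟨b, hbB, ?_⟩
      simp only [hn, slice, mem_ofPred_eq] at hb
      rw [sSup_phi] at hb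
      rw [dist_comm, dist_eq_norm]
      calc ‖b - zz d k‖ ≤ C * (tt k ^ 2 - phi k b) := hkey b hb.1
        _ < C * (1 / ((j : ℝ) + 1)) := mul_lt_mul_of_pos_left (by linarith [hb.2]) hC
        _ < C * (η / C) := mul_lt_mul_of_pos_left hj hC
        _ = η := by field_simp

/-- The three limit points: over them the fibre of `U` is the whole ball. -/
lemma vertex_mem (hr : ∀ y : Y, ‖y‖ ≤ 1 → ∀ η > 0, ∀ N : ℕ, ∃ n ≥ N, ‖d n - y‖ < η)
    (y : Y) (hy : ‖y‖ ≤ 1) (i : Fin 3) :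
    ((y, 2 * (i : ℝ), (2 * (i : ℝ)) ^ 2) : X) ∈ UU d := by
  have hcl : IsClosed (UU d) := isClosed_closure
  rw [← hcl.closure_eq]
  rw [Metric.mem_closure_iff]
  intro η hη
  obtain ⟨N, hN⟩ := exists_nat_one_div_lt (show (0 : ℝ) < η / 10 by positivity)
  obtain ⟨n, hn, hdn⟩ := hr y hy η hη N
  refine ⟨zz d (i, n), zz_mem d _, ?_⟩
  have h0 : (0 : ℝ) < 1 / ((n : ℝ) + 2) := by positivity
  have h1 : 1 / ((n : ℝ) + 2) < η / 10 := by
    refine lt_of_le_of_lt ?_ hN
    apply one_div_le_one_div_of_le (by positivity)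
    have : (N : ℝ) ≤ n := by exact_mod_cast hn
    linarith
  have h2 := inv_le_half n
  have h3 := fin3_le i
  have h4 : (0 : ℝ) ≤ i := by positivity
  rw [dist_comm, dist_eq_norm]
  simp only [zz, tt, Prod.mk_sub_mk, Prod.norm_def]
  refine max_lt hdn (max_lt ?_ ?_)
  · rw [Real.norm_eq_abs, abs_lt]; constructor <;> linarith
  · rw [Real.norm_eq_abs, abs_lt]
    constructor
    · nlinarith
    · nlinarith

lemma fibre_mem (hr : ∀ y : Y, ‖y‖ ≤ 1 → ∀ η > 0, ∀ N : ℕ, ∃ n ≥ N, ‖d n - y‖ < η)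
    (y : Y) (hy : ‖y‖ ≤ 1) (u v : ℝ) (h1 : 0 ≤ v - 2 * u) (h2 : 0 ≤ 4 * u - v)
    (h3 : 0 ≤ 8 - 6 * u + v) : ((y, u, v) : X) ∈ UU d := by
  have h0 := vertex_mem d hr y hy 0
  have h2' := vertex_mem d hr y hy 1
  have h4' := vertex_mem d hr y hy 2
  have key := (convex_UU d).sum_mem (t := Finset.univ) (w := ![(8 - 6 * u + v) / 8,
      (4 * u - v) / 4, (v - 2 * u) / 8])
    (z := ![((y, 2 * ((0 : Fin 3) : ℝ), (2 * ((0 : Fin 3) : ℝ)) ^ 2) : X),
      (y, 2 * ((1 : Fin 3) : ℝ), (2 * ((1 : Fin 3) : ℝ)) ^ 2),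
      (y, 2 * ((2 : Fin 3) : ℝ), (2 * ((2 : Fin 3) : ℝ)) ^ 2)])
    (by intro i _; fin_cases i <;> simp <;> linarith)
    (by simp [Fin.sum_univ_three]; ring)
    (by intro i _; fin_cases i <;> simp_all)
  convert key using 1
  simp only [Fin.sum_univ_three, Matrix.cons_val_zero, Matrix.cons_val_one, Matrix.cons_val_two,
    Matrix.head_cons, Matrix.tail_cons, Prod.smul_mk, Prod.mk_add_mk, smul_eq_mul]
  have e : ((8 - 6 * u + v) / 8 + (4 * u - v) / 4 + (v - 2 * u) / 8) = 1 := by ring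
  refine Prod.ext ?_ (Prod.ext ?_ ?_)
  · simp only
    rw [← add_smul, ← add_smul, e, one_smul]
  · simp; ring
  · simp; ring

lemma norm_fst_le (hd : ∀ n, ‖d n‖ ≤ 1) (x : X) (hx : x ∈ UU d) : ‖x.1‖ ≤ 1 := by
  have : UU d ⊆ {x : X | ‖x.1‖ ≤ 1} := by
    apply subset_UU
    · intro x hx y hy a b ha hb hab
      simp only [mem_ofPred_eq] at hx hy ⊢
      calc ‖(a • x + b • y).1‖ = ‖a • x.1 + b • y.1‖ := rfl
        _ ≤ ‖a • x.1‖ + ‖b • y.1‖ := norm_add_le _ _
        _ = a * ‖x.1‖ + b * ‖y.1‖ := by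
            rw [norm_smul, norm_smul, Real.norm_eq_abs, Real.norm_eq_abs, abs_of_nonneg ha,
              abs_of_nonneg hb]
        _ ≤ a * 1 + b * 1 :=
            add_le_add (mul_le_mul_of_nonneg_left hx ha) (mul_le_mul_of_nonneg_left hy hb)
        _ = 1 := by rw [mul_one, mul_one, hab]
    · exact isClosed_le (by fun_prop) continuous_const
    · intro k
      exact hd _
  exact this hx

/-- In the relative weak topology, an open set containing a point contains the
intersection with finitely many functional conditions. -/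
lemma weak_nbhd {U : Set X} {V : Set (toWeakSpace ℝ X '' U)} (hV : IsOpen V)
    (x : X) (hx : x ∈ U) (hxV : (⟨toWeakSpace ℝ X x, ⟨x, hx, rfl⟩⟩ : toWeakSpace ℝ X '' U) ∈ V) :
    ∃ F : Finset (X →L[ℝ] ℝ), ∀ w : ℕ → X, (hw : ∀ n, w n ∈ U) →
      (∀ f ∈ F, Tendsto (fun n => f (w n)) atTop (𝓝 (f x))) →
      ∀ᶠ n in atTop, (⟨toWeakSpace ℝ X (w n), ⟨w n, hw n, rfl⟩⟩ : toWeakSpace ℝ X '' U) ∈ V := by
  obtain ⟨O, hO, rfl⟩ := isOpen_induced_iff.1 hV
  obtain ⟨O', hO', rfl⟩ := isOpen_induced_iff.1 hO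
  rw [isOpen_pi_iff] at hO'
  obtain ⟨F, u, hu, hsub⟩ := hO' _ hxV
  refine ⟨F, fun w hw hconv => ?_⟩
  have : ∀ᶠ n in atTop, ∀ f ∈ F, f (w n) ∈ u f := by
    rw [Filter.eventually_all_finset]
    intro f hf
    exact (hconv f hf).eventually ((hu f hf).1.mem_nhds (hu f hf).2)
  filter_upwards [this] with n hn
  exact hsub hn

theorem no_pi_basis (hd : ∀ n, ‖d n‖ ≤ 1)
    (hr : ∀ y : Y, ‖y‖ ≤ 1 → ∀ η > 0, ∀ N : ℕ, ∃ n ≥ N, ‖d n - y‖ < η) :
    ¬ HasCountablePiBasis (toWeakSpace ℝ X '' UU d) := by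
  rintro ⟨P, hPc, hPo, hP⟩
  -- choose a point and finitely many functionals for every member of the family
  have hch : ∀ V ∈ P, ∃ (x : X) (hx : x ∈ UU d) (F : Finset (X →L[ℝ] ℝ)),
      (⟨toWeakSpace ℝ X x, ⟨x, hx, rfl⟩⟩ : toWeakSpace ℝ X '' UU d) ∈ V ∧
      ∀ w : ℕ → X, (hw : ∀ n, w n ∈ UU d) →
      (∀ f ∈ F, Tendsto (fun n => f (w n)) atTop (𝓝 (f x))) →
      ∀ᶠ n in atTop, (⟨toWeakSpace ℝ X (w n), ⟨w n, hw n, rfl⟩⟩ :
        toWeakSpace ℝ X '' UU d) ∈ V := by
    intro V hV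
    obtain ⟨hVo, ⟨⟨_, ⟨x, hx, rfl⟩⟩, hxV⟩⟩ := hPo V hV
    obtain ⟨F, hF⟩ := weak_nbhd hVo x hx hxV
    exact ⟨x, hx, F, hxV, hF⟩
  choose! xx hxx FF hmem hFF using hch
  -- a point of the Cantor space without atoms
  let incl : Y →L[ℝ] X := ContinuousLinearMap.inl ℝ Y (ℝ × ℝ)
  let D : Set (Y →L[ℝ] ℝ) := ⋃ V ∈ P, (fun f : X →L[ℝ] ℝ => f.comp incl) '' (FF V : Set (X →L[ℝ] ℝ))
  have hD : D.Countable := hPc.biUnion (fun V _ => (FF V).countable_toSet.image _)
  obtain ⟨s, hs⟩ := exists_point D hD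
  -- the weakly open set
  let ev : X →L[ℝ] ℝ := (ContinuousMap.evalCLM ℝ s).comp (ContinuousLinearMap.fst ℝ Y (ℝ × ℝ))
  let f1 : X →L[ℝ] ℝ := (ContinuousLinearMap.fst ℝ ℝ ℝ).comp (ContinuousLinearMap.snd ℝ Y (ℝ × ℝ))
  let f2 : X →L[ℝ] ℝ := (ContinuousLinearMap.snd ℝ ℝ ℝ).comp (ContinuousLinearMap.snd ℝ Y (ℝ × ℝ))
  let W : Set X := {x | 1 / 2 < ev x ∧ 0 < (f2 - (2 : ℝ) • f1) x ∧ 0 < ((4 : ℝ) • f1 - f2) x ∧
    -8 < (f2 - (6 : ℝ) • f1) x}
  have hcont : ∀ f : X →L[ℝ] ℝ, Continuous (fun x : WeakSpace ℝ X => f ((toWeakSpace ℝ X).symm x)) :=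
    fun f => WeakBilin.eval_continuous (topDualPairing ℝ X).flip f
  have hWo : IsOpen {x : toWeakSpace ℝ X '' UU d | (toWeakSpace ℝ X).symm x.1 ∈ W} := by
    apply IsOpen.inter
    · exact isOpen_lt continuous_const ((hcont ev).comp continuous_subtype_val)
    apply IsOpen.inter
    · exact isOpen_lt continuous_const ((hcont (f2 - (2 : ℝ) • f1)).comp continuous_subtype_val)
    apply IsOpen.inter
    · exact isOpen_lt continuous_const ((hcont ((4 : ℝ) • f1 - f2)).comp continuous_subtype_val)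
    · exact isOpen_lt continuous_const ((hcont (f2 - (6 : ℝ) • f1)).comp continuous_subtype_val)
  have hone : ‖(1 : Y)‖ ≤ 1 := by
    rw [ContinuousMap.norm_le _ zero_le_one]; intro x; simp
  have hWne : {x : toWeakSpace ℝ X '' UU d | (toWeakSpace ℝ X).symm x.1 ∈ W}.Nonempty := by
    have hm : (((1 : Y), (2 : ℝ), (20 / 3 : ℝ)) : X) ∈ UU d :=
      fibre_mem d hr 1 hone _ _ (by norm_num) (by norm_num) (by norm_num)
    refine ⟨⟨toWeakSpace ℝ X _, ⟨_, hm, rfl⟩⟩, ?_⟩
    simp only [mem_ofPred_eq, LinearEquiv.symm_apply_apply, W, ev, f1, f2]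
    refine ⟨?_, ?_, ?_, ?_⟩ <;> simp <;> norm_num
  obtain ⟨V, hVP, hVW⟩ := hP _ hWo hWne
  -- the point of `V` and its modification
  set x := xx V with hxdef
  have hxU : x ∈ UU d := hxx V hVP
  have hxV := hmem V hVP
  have hxW : x ∈ W := hVW hxV
  obtain ⟨hW1, hW2, hW3, hW4⟩ := hxW
  have hx1 : ‖x.1‖ ≤ 1 := norm_fst_le d hd x hxU
  let w : ℕ → X := fun n => (x.1 - x.1 * chi n s, x.2.1, x.2.2)
  have hwU : ∀ n, w n ∈ UU d := by
    intro n
    apply fibre_mem d hr
    · rw [ContinuousMap.norm_le _ zero_le_one]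
      intro z
      by_cases hz : z ∈ cyl n s
      · simp [chi_of_mem hz]
      · simp only [ContinuousMap.sub_apply, ContinuousMap.mul_apply, chi_of_notMem hz, mul_zero,
          sub_zero]
        exact (x.1.norm_coe_le_norm z).trans hx1
    · have : (f2 - (2 : ℝ) • f1) x = x.2.2 - 2 * x.2.1 := by simp [f1, f2]
      rw [this] at hW2; linarith
    · have : ((4 : ℝ) • f1 - f2) x = 4 * x.2.1 - x.2.2 := by simp [f1, f2]
      rw [this] at hW3; linarith
    · have : (f2 - (6 : ℝ) • f1) x = x.2.2 - 6 * x.2.1 := by simp [f1, f2]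
      rw [this] at hW4; linarith
  have hconv : ∀ f ∈ FF V, Tendsto (fun n => f (w n)) atTop (𝓝 (f x)) := by
    intro f hf
    have hfD : f.comp incl ∈ D := by
      simp only [D, mem_iUnion]
      exact ⟨V, hVP, f, hf, rfl⟩
    have h1 := hs _ hfD x.1 hx1
    have h2 : ∀ n, f (w n) = f x - (f.comp incl) (x.1 * chi n s) := by
      intro n
      have : w n = x - incl (x.1 * chi n s) := by
        refine Prod.ext ?_ (Prod.ext ?_ ?_) <;> simp [w, incl]
      rw [this, map_sub]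
      rfl
    simp_rw [h2]
    simpa using tendsto_const_nhds.sub h1
  have hev := hFF V hVP w hwU hconv
  obtain ⟨n, hn⟩ := hev.exists
  have hwW : w n ∈ W := hVW hn
  have hcontra := hwW.1
  have hz : ev (w n) = 0 := by
    simp [ev, w, chi_of_mem (self_mem_cyl n s)]
  rw [hz] at hcontra
  norm_num at hcontra

/-- There are a real Banach space `E` and a nonempty closed, convex, bounded, slicely countably
determined set `U ⊆ E` such that `U` with its relative weak topology has no countable pi-basis. -/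
theorem result : ∃ (E : Type) (_ : NormedAddCommGroup E) (_ : NormedSpace ℝ E)
    (_ : CompleteSpace E) (U : Set E), U.Nonempty ∧ IsClosed U ∧ Convex ℝ U ∧
    Bornology.IsBounded U ∧ IsSCD U ∧ ¬ HasCountablePiBasis (toWeakSpace ℝ E '' U) := by
  obtain ⟨d, hd, hr⟩ := exists_seq
  exact ⟨X, inferInstance, inferInstance, inferInstance, UU d, ⟨_, zz_mem d (0, 0)⟩,
    isClosed_closure, convex_UU d, Metric.isBounded_closedBall.subset (UU_subset_ball d hd),
    isSCD_UU d hd, no_pi_basis d hd hr⟩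

end Pool.Agent.Results.MP_349854_an.NoCountablePiBasis
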